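import Pool.Agent.Helper89.GW.Stmts

/-!
# MP_897da6_gt: module SIGN
-/

set_option autoImplicit false

open scoped ContDiff Topology
open Set Filter

namespace GW

/-- a double sum with nonnegative terms and one positive term -/
theorem sign_pos {I J : Finset ℤ} {a b : ℤ → ℝ} {A B : List ℤ} {f : ℤ → ℤ → ℝ}
    (ha0 : ∀ c, 0 ≤ a c) (hb0 : ∀ k, 0 ≤ b k) (ha : ∀ c, 0 < a c ↔ c ∈ A)
    (hb : ∀ k, 0 < b k ↔ k ∈ B) (hf : ∀ c ∈ A, ∀ k ∈ B, 0 ≤ f c k)
    {c : ℤ} {k : ℤ} (hc : c ∈ A) (hk : k ∈ B) (hcI : c ∈ I) (hkJ : k ∈ J) (hfp : 0 < f c k) :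
    0 < ∑ c ∈ I, ∑ k ∈ J, f c k * a c * b k := by
  have hnn : ∀ c k, 0 ≤ f c k * a c * b k := by
    intro c k
    rcases (ha0 c).eq_or_lt with h | h
    · rw [← h]; simp
    rcases (hb0 k).eq_or_lt with h' | h'
    · rw [← h']; simp
    exact mul_nonneg (mul_nonneg (hf c ((ha c).mp h) k ((hb k).mp h')) h.le) h'.le
  apply Finset.sum_pos' (fun c _ => Finset.sum_nonneg fun k _ => hnn c k)
  refine ⟨c, hcI, ?_⟩
  apply Finset.sum_pos' (fun k _ => hnn c k)
  exact ⟨k, hkJ, mul_pos (mul_pos hfp ((ha c).mpr hc)) ((hb k).mpr hk)⟩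

theorem sign_sPos {z : ℤ → ℤ → ℤ} {X T : El} (h : sPos z X T = true) :
    (∀ c ∈ X.iv, ∀ k ∈ T.nd, z c k ≤ z (c + 1) k) ∧
      ∃ c ∈ X.iv, ∃ k ∈ T.nd, z c k < z (c + 1) k := by
  simpa [sPos, List.all_eq_true, List.any_eq_true] using h

theorem sign_rPos {z : ℤ → ℤ → ℤ} {X T : El} (h : rPos z X T = true) :
    (∀ c ∈ X.nd, ∀ k ∈ T.iv, z c k ≤ z c (k + 1)) ∧
      ∃ c ∈ X.nd, ∃ k ∈ T.iv, z c k < z c (k + 1) := by
  simpa [rPos, List.all_eq_true, List.any_eq_true] using h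

/-- partition of unity -/
theorem sign_unity (hL : ST_LAM) (lo hi : ℤ) (x : ℝ) (h1 : (lo : ℝ) + 2 ≤ x) (h2 : x ≤ hi - 1) :
    ∑ c ∈ Finset.Icc lo hi, Lam (x - c) = 1 := by
  obtain ⟨_, _, _, _, hL0, _, hLp, _, _, _, hL4, _⟩ := hL
  set n : ℤ := ⌈x⌉ with hn
  have hn1 : x ≤ n := Int.le_ceil x
  have hn2 : (n : ℝ) < x + 1 := Int.ceil_lt_add_one x
  have hlo : lo + 2 ≤ n := by
    have : ((lo + 2 : ℤ) : ℝ) ≤ n := by push_cast; linarith
    exact_mod_cast this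
  have hhi : n ≤ hi - 1 := by
    apply Int.ceil_le.mpr
    push_cast
    exact h2
  have hsub : ({n - 2, n - 1, n, n + 1} : Finset ℤ) ⊆ Finset.Icc lo hi := by
    intro c hc
    simp only [Finset.mem_insert, Finset.mem_singleton] at hc
    rw [Finset.mem_Icc]
    omega
  rw [← Finset.sum_subset hsub]
  · rw [Finset.sum_insert (by simp only [Finset.mem_insert, Finset.mem_singleton]; omega),
      Finset.sum_insert (by simp only [Finset.mem_insert, Finset.mem_singleton]; omega),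
      Finset.sum_insert (by simp only [Finset.mem_singleton]; omega), Finset.sum_singleton]
    have h4 := hL4 (x - n) (by linarith) (by linarith)
    have e1 : x - ((n - 2 : ℤ) : ℝ) = x - n + 2 := by push_cast; ring
    have e2 : x - ((n - 1 : ℤ) : ℝ) = x - n + 1 := by push_cast; ring
    have e3 : x - ((n + 1 : ℤ) : ℝ) = x - n - 1 := by push_cast; ring
    rw [e1, e2, e3]
    linarith
  · intro c _ hc
    by_contra hne
    have hpos : 0 < Lam (x - c) := lt_of_le_of_ne (hL0 _) (Ne.symm hne)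
    have habs := abs_lt.mp ((hLp _).mp hpos)
    apply hc
    have h5 : (n : ℝ) - 3 < c := by linarith [habs.2]
    have h6 : (c : ℝ) < n + 2 := by linarith [habs.1]
    have h5' : n - 3 < c := by exact_mod_cast h5
    have h6' : c < n + 2 := by exact_mod_cast h6
    simp only [Finset.mem_insert, Finset.mem_singleton]
    omega

theorem sign_sp (z : ℤ → ℤ → ℤ) (x t : ℝ) : sp z (x, t) =
    ∑ c ∈ Finset.Icc (-12 : ℤ) 18, ∑ k ∈ Finset.Icc (-2 : ℤ) 26,
      (z c k : ℝ) * Lam (x - c) * Lam (t - k) := rfl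

theorem sign_supneg {z : ℤ → ℤ → ℤ} (h : SupI z) : SupI (fun c k => - z c k) := by
  intro c k hck
  exact h c k (by simpa using hck)

theorem st_SIGN (hSPD : ST_SPD) (hELEM : ST_ELEM) (hLAM : ST_LAM) : ST_SIGN := by
  intro z X T x t hz hx ht
  obtain ⟨hXiv, hXnd, hXc⟩ := hELEM.2 X x hx
  obtain ⟨hTiv, hTnd, hTc⟩ := hELEM.2 T t ht
  have hB0 : ∀ y, 0 ≤ Bx y := hLAM.2.2.2.1
  have hL0 : ∀ y, 0 ≤ Lam y := hLAM.2.2.2.2.1
  -- positivity of the slope sums for an arbitrary array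
  have hs : ∀ y : ℤ → ℤ → ℤ, SupI y → sPos y X T = true →
      0 < ∑ c ∈ Finset.Icc (-12 : ℤ) 18, ∑ k ∈ Finset.Icc (-2 : ℤ) 26,
        ((y (c + 1) k : ℝ) - y c k) * Bx (x - c) * Lam (t - k) := by
    intro y hy hp
    obtain ⟨h1, c, hc, k, hk, h2⟩ := sign_sPos hp
    have hr : -12 ≤ c ∧ c ≤ 18 ∧ -2 ≤ k ∧ k ≤ 26 := by
      by_cases h0 : y c k = 0
      · have := hy (c + 1) k (by omega)
        omega
      · have := hy c k h0
        omega
    apply sign_pos (fun c => hB0 _) (fun k => hL0 _) hXiv hTnd ?_ hc hk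
      (Finset.mem_Icc.mpr ⟨hr.1, hr.2.1⟩) (Finset.mem_Icc.mpr ⟨hr.2.2.1, hr.2.2.2⟩) ?_
    · intro c hc k hk
      have : (y c k : ℝ) ≤ y (c + 1) k := by exact_mod_cast h1 c hc k hk
      linarith
    · have : (y c k : ℝ) < y (c + 1) k := by exact_mod_cast h2
      linarith
  have hr : ∀ y : ℤ → ℤ → ℤ, SupI y → rPos y X T = true →
      0 < ∑ c ∈ Finset.Icc (-12 : ℤ) 18, ∑ k ∈ Finset.Icc (-2 : ℤ) 26,
        ((y c (k + 1) : ℝ) - y c k) * Lam (x - c) * Bx (t - k) := by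
    intro y hy hp
    obtain ⟨h1, c, hc, k, hk, h2⟩ := sign_rPos hp
    have hr : -12 ≤ c ∧ c ≤ 18 ∧ -2 ≤ k ∧ k ≤ 26 := by
      by_cases h0 : y c k = 0
      · have := hy c (k + 1) (by omega)
        omega
      · have := hy c k h0
        omega
    apply sign_pos (fun c => hL0 _) (fun k => hB0 _) hXnd hTiv ?_ hc hk
      (Finset.mem_Icc.mpr ⟨hr.1, hr.2.1⟩) (Finset.mem_Icc.mpr ⟨hr.2.2.1, hr.2.2.2⟩) ?_
    · intro c hc k hk
      have : (y c k : ℝ) ≤ y c (k + 1) := by exact_mod_cast h1 c hc k hk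
      linarith
    · have : (y c k : ℝ) < y c (k + 1) := by exact_mod_cast h2
      linarith
  obtain ⟨_, _, hdX, hdT⟩ := hSPD z hz
  refine ⟨?_, ?_, ?_, ?_, ?_, ?_, ?_⟩
  · intro h
    rw [hdX]
    exact hs z hz h
  · intro h
    have h1 := hs (fun c k => - z c k) (sign_supneg hz) h
    rw [hdX]
    have h2 : (∑ c ∈ Finset.Icc (-12 : ℤ) 18, ∑ k ∈ Finset.Icc (-2 : ℤ) 26,
        (((-z (c + 1) k : ℤ) : ℝ) - ((-z c k : ℤ) : ℝ)) * Bx (x - c) * Lam (t - k)) =
        - ∑ c ∈ Finset.Icc (-12 : ℤ) 18, ∑ k ∈ Finset.Icc (-2 : ℤ) 26,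
        ((z (c + 1) k : ℝ) - z c k) * Bx (x - c) * Lam (t - k) := by
      rw [← Finset.sum_neg_distrib]
      refine Finset.sum_congr rfl fun c _ => ?_
      rw [← Finset.sum_neg_distrib]
      refine Finset.sum_congr rfl fun k _ => ?_
      push_cast
      ring
    rw [h2] at h1
    linarith
  · intro h
    rw [hdT]
    exact hr z hz h
  · intro h
    have h1 := hr (fun c k => - z c k) (sign_supneg hz) h
    rw [hdT]
    have h2 : (∑ c ∈ Finset.Icc (-12 : ℤ) 18, ∑ k ∈ Finset.Icc (-2 : ℤ) 26,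
        (((-z c (k + 1) : ℤ) : ℝ) - ((-z c k : ℤ) : ℝ)) * Lam (x - c) * Bx (t - k)) =
        - ∑ c ∈ Finset.Icc (-12 : ℤ) 18, ∑ k ∈ Finset.Icc (-2 : ℤ) 26,
        ((z c (k + 1) : ℝ) - z c k) * Lam (x - c) * Bx (t - k) := by
      rw [← Finset.sum_neg_distrib]
      refine Finset.sum_congr rfl fun c _ => ?_
      rw [← Finset.sum_neg_distrib]
      refine Finset.sum_congr rfl fun k _ => ?_
      push_cast
      ring
    rw [h2] at h1
    linarith
  · intro h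
    have h0 : ∀ c ∈ X.nd, ∀ k ∈ T.nd, z c k = 0 := by
      simpa [absent, List.all_eq_true] using h
    rw [sign_sp]
    refine Finset.sum_eq_zero fun c _ => Finset.sum_eq_zero fun k _ => ?_
    rcases (hL0 (x - c)).eq_or_lt with h1 | h1
    · rw [← h1]; simp
    rcases (hL0 (t - k)).eq_or_lt with h2 | h2
    · rw [← h2]; simp
    rw [h0 c ((hXnd c).mp h1) k ((hTnd k).mp h2)]
    simp
  · intro hnn h
    have h0 : ∃ c ∈ X.core, ∃ k ∈ T.core, 0 < z c k := by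
      simpa [full, List.any_eq_true] using h
    obtain ⟨c, hc, k, hk, hp⟩ := h0
    have hr := hz c k (by omega)
    have hterm : ∀ c k : ℤ, 0 ≤ (z c k : ℝ) * Lam (x - c) * Lam (t - k) := by
      intro c k
      rcases (hL0 (x - c)).eq_or_lt with h1 | h1
      · rw [← h1]; simp
      rcases (hL0 (t - k)).eq_or_lt with h2 | h2
      · rw [← h2]; simp
      have h3 : (0 : ℝ) ≤ z c k := by exact_mod_cast hnn c ((hXnd c).mp h1) k ((hTnd k).mp h2)
      exact mul_nonneg (mul_nonneg h3 h1.le) h2.le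
    rw [sign_sp]
    have h4 : (1 / 16 : ℝ) ≤ (z c k : ℝ) * Lam (x - c) * Lam (t - k) := by
      have h5 : (1 : ℝ) ≤ z c k := by exact_mod_cast hp
      have h6 := hXc c hc
      have h7 := hTc k hk
      have h8 : (1 : ℝ) * (1 / 4) ≤ (z c k : ℝ) * Lam (x - c) :=
        mul_le_mul h5 h6 (by norm_num) (by linarith)
      calc (1 / 16 : ℝ) = 1 * (1 / 4) * (1 / 4) := by norm_num
        _ ≤ (z c k : ℝ) * Lam (x - c) * Lam (t - k) :=
          mul_le_mul h8 h7 (by norm_num) (by linarith)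
    calc (1 / 16 : ℝ) ≤ (z c k : ℝ) * Lam (x - c) * Lam (t - k) := h4
      _ ≤ ∑ k ∈ Finset.Icc (-2 : ℤ) 26, (z c k : ℝ) * Lam (x - c) * Lam (t - k) :=
          Finset.single_le_sum (f := fun k : ℤ => (z c k : ℝ) * Lam (x - c) * Lam (t - k))
            (fun k _ => hterm c k) (Finset.mem_Icc.mpr ⟨by omega, by omega⟩)
      _ ≤ _ := Finset.single_le_sum
            (f := fun c : ℤ => ∑ k ∈ Finset.Icc (-2 : ℤ) 26, (z c k : ℝ) * Lam (x - c) * Lam (t - k))
            (fun c _ => Finset.sum_nonneg fun k _ => hterm c k)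
            (Finset.mem_Icc.mpr ⟨by omega, by omega⟩)
  · intro m hm hx1 hx2 ht1 ht2
    have u1 := sign_unity hLAM (-12) 18 x (by push_cast; linarith) (by push_cast; linarith)
    have u2 := sign_unity hLAM (-2) 26 t (by push_cast; linarith) (by push_cast; linarith)
    have e1 : (m : ℝ) = ∑ c ∈ Finset.Icc (-12 : ℤ) 18, ∑ k ∈ Finset.Icc (-2 : ℤ) 26,
        (m : ℝ) * Lam (x - c) * Lam (t - k) := by
      have : ∀ c : ℤ, ∑ k ∈ Finset.Icc (-2 : ℤ) 26, (m : ℝ) * Lam (x - c) * Lam (t - k) =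
          (m : ℝ) * Lam (x - c) := by
        intro c
        rw [← Finset.mul_sum, u2, mul_one]
      simp only [this]
      rw [← Finset.mul_sum, u1, mul_one]
    rw [sign_sp]
    calc (m : ℝ) = _ := e1
      _ ≤ _ := Finset.sum_le_sum fun c _ => Finset.sum_le_sum fun k _ => ?_
    rcases (hL0 (x - c)).eq_or_lt with h1 | h1
    · rw [← h1]; simp
    rcases (hL0 (t - k)).eq_or_lt with h2 | h2
    · rw [← h2]; simp
    have h3 : (m : ℝ) ≤ z c k := by exact_mod_cast hm c ((hXnd c).mp h1) k ((hTnd k).mp h2)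
    exact mul_le_mul_of_nonneg_right (mul_le_mul_of_nonneg_right h3 h1.le) h2.le

end GW
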