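import Pool.Agent.Helper89.GW.Stmts

/-!
# MP_897da6_gt: module SREF
-/

set_option autoImplicit false

open scoped ContDiff Topology
open Set Filter

namespace GW

theorem sref_val (hLeven : ∀ x, Lam (-x) = Lam x) (z : ℤ → ℤ → ℤ)
    (hsym : ∀ c k, z c (24 - k) = z c k) (x t : ℝ) : sp z (x, 24 - t) = sp z (x, t) := by
  show ∑ c ∈ Finset.Icc (-12 : ℤ) 18, ∑ k ∈ Finset.Icc (-2 : ℤ) 26,
      (z c k : ℝ) * Lam (x - c) * Lam (24 - t - k) =
    ∑ c ∈ Finset.Icc (-12 : ℤ) 18, ∑ k ∈ Finset.Icc (-2 : ℤ) 26,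
      (z c k : ℝ) * Lam (x - c) * Lam (t - k)
  refine Finset.sum_congr rfl fun c _ => ?_
  refine Finset.sum_nbij' (fun k => 24 - k) (fun k => 24 - k) ?_ ?_ ?_ ?_ ?_
  · intro k hk
    rw [Finset.mem_Icc] at hk ⊢
    omega
  · intro k hk
    rw [Finset.mem_Icc] at hk ⊢
    omega
  · intro k _
    ring
  · intro k _
    ring
  · intro k _
    have e : t - ((24 - k : ℤ) : ℝ) = -(24 - t - k) := by push_cast; ring
    rw [hsym, e, hLeven]

theorem st_SREF (hSPD : ST_SPD) (hLAM : ST_LAM) : ST_SREF := by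
  intro z hz hsym x t
  have hLe : ∀ x, Lam (-x) = Lam x := hLAM.2.2.2.2.2.2.2.1
  obtain ⟨hC, _, _, _⟩ := hSPD z hz
  have hd : Differentiable ℝ (sp z) := hC.differentiable (by simp)
  set R : ℝ × ℝ → ℝ × ℝ := fun p => (p.1, 24 - p.2) with hR
  have hRd : ∀ p, HasFDerivAt R ((ContinuousLinearMap.fst ℝ ℝ ℝ).prod
      (-ContinuousLinearMap.snd ℝ ℝ ℝ)) p := by
    intro p
    apply HasFDerivAt.prodMk
    · exact hasFDerivAt_fst
    · exact hasFDerivAt_snd.const_sub 24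
  have hcomp : (fun p => sp z (R p)) = sp z := by
    funext p
    exact sref_val hLe z hsym p.1 p.2
  have h1 : HasFDerivAt (fun p => sp z (R p)) ((fderiv ℝ (sp z) (R (x, t))).comp
      ((ContinuousLinearMap.fst ℝ ℝ ℝ).prod (-ContinuousLinearMap.snd ℝ ℝ ℝ))) (x, t) :=
    (hd (R (x, t))).hasFDerivAt.comp (x, t) (hRd (x, t))
  rw [hcomp] at h1
  have h2 := h1.fderiv
  have hRx : R (x, t) = (x, 24 - t) := rfl
  rw [hRx] at h2
  refine ⟨sref_val hLe z hsym x t, ?_, ?_⟩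
  · unfold dX
    rw [h2]
    simp
  · unfold dT
    rw [h2]
    have : (fderiv ℝ (sp z) (x, 24 - t)) (0, -1) = -(fderiv ℝ (sp z) (x, 24 - t)) (0, 1) := by
      rw [← map_neg]
      simp
    simp [this]

end GW
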